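import Pool.Agent.LRA67.Main

/-!
MP_d82c50_lc: entrywise `ℓ^p` low-rank matrix approximation is hard for the existential theory of
the reals, for `p = 0` and for `p = 1`.
-/

set_option autoImplicit false

namespace Pool.Agent.Results.MP_d82c50_lc.ExistsRHard

open Pool.Agent.LRA67 Pool.Agent.LibComplexity

/-- The existential theory of the reals is polynomial-time many-one reducible to `LRA_0` and
to `LRA_1`. -/
theorem result : PolyRed ETR (LRA 0) ∧ PolyRed ETR (LRA 1) :=
  ⟨hard0, hard1⟩

end Pool.Agent.Results.MP_d82c50_lc.ExistsRHard
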